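import Mathlib
import Pool.Agent.H15.AL2

set_option autoImplicit false

namespace Pool.Agent.Results.MP_8fd369_lc.Exists

theorem result :
    ∃ (X : Type) (_ : LinearOrder X), DenselyOrdered X ∧ Uncountable X ∧
      IsEmpty ((Ordinal.omega.{0} 1).ToType ↪o X) ∧
      IsEmpty ((Ordinal.omega.{0} 1).ToTypeᵒᵈ ↪o X) ∧
      (∀ Y : Set X, Nonempty (Y ↪o ℝ) → Y.Countable) ∧
      ∀ S : Set X, ∃ σ : List X → X, ∀ a b : ℕ → X,
        (∀ n, b n = σ ((List.range (n + 1)).map a)) →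
        (∀ n, (∀ k < n, a k < a (k + 1) ∧ a (k + 1) < b k) →
          a n < b n ∧ ∀ m, n = m + 1 → b n < b m) ∧
        ((∀ k, a k < a (k + 1) ∧ a (k + 1) < b k) → ¬ ∃ x ∈ S, ∀ n, a n < x ∧ x < b n) := by
  have : Uncountable (Ordinal.omega.{0} 1).ToType := by
    rw [← Cardinal.aleph0_lt_mk_iff, Cardinal.mk_toType, Ordinal.card_omega]
    exact Cardinal.aleph0_lt_aleph_one
  refine Pool.Agent.H15.AL.main ?_
  have h : ∀ i : (Cardinal.aleph.{0} 1).ord.ToType,
      Cardinal.mk (Set.Iio i) < Cardinal.aleph 1 := Cardinal.mk_Iio_toType_ord_lt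
  have h' : ∀ o : Ordinal.{0}, (Cardinal.aleph.{0} 1).ord = o → ∀ i : o.ToType,
      Cardinal.mk (Set.Iio i) < Cardinal.aleph 1 := by
    rintro o rfl
    exact h
  intro β
  rw [← Cardinal.le_aleph0_iff_set_countable, ← Order.lt_succ_iff, Cardinal.succ_aleph0]
  exact h' _ (Cardinal.ord_aleph 1) β

end Pool.Agent.Results.MP_8fd369_lc.Exists
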